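import Pool.Agent.H12R3.VR.Stmts

set_option autoImplicit false

open Filter Topology

namespace H12VR

theorem closure_maps (f : ℝ → ℝ) (P : Fin 6 → ℝ) (h : Aut f P) (p : ℝ × ℝ)
    (hp : p ∈ closure (gr f)) : (ax P p.1 p.2, ay P p.1 p.2) ∈ closure (gr f) := by
  have hc : Continuous (fun p : ℝ × ℝ => (ax P p.1 p.2, ay P p.1 p.2)) := by
    unfold ax ay
    fun_prop
  have hm : Set.MapsTo (fun p : ℝ × ℝ => (ax P p.1 p.2, ay P p.1 p.2)) (gr f) (gr f) := by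
    intro q hq
    have hq' : q.2 = f q.1 := hq
    change ay P q.1 q.2 = f (ax P q.1 q.2)
    rw [hq', h.2.1]
  exact map_mem_closure (f := fun p : ℝ × ℝ => (ax P p.1 p.2, ay P p.1 p.2)) hc hp hm

theorem accum (hAcc : TaskAcc) (hGroup : TaskGroup) (hCont : TaskCont) (hLim : TaskLim)
    (f : ℝ → ℝ) (Pf : ℝ → Fin 6 → ℝ) (hP : ∀ c, 0 < c → Rig f c (Pf c)) (C : Set ℝ)
    (hC : ∀ c ∈ C, 0 < c) (hCu : ¬ C.Countable) :
    ∃ c' ∈ C, ∃ c : ℕ → ℝ, (∀ n, c n ∈ C) ∧ ∃ X : Fin 6 → ℝ, X ≠ 0 ∧ X 0 = 0 ∧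
      X 1 = -(c' ^ 2 * X 3) ∧ ∃ e : ℕ → ℝ, (∀ n, 0 < e n) ∧ Tendsto e atTop (𝓝 0) ∧
      Tendsto (fun n => (e n)⁻¹ • (comp (inv (Pf c')) (Pf (c n)) - id6)) atTop (𝓝 X) := by
  have hinj : Set.InjOn Pf C := by
    intro a ha b hb hab
    have h1 := (hP a (hC a ha)).2.2.1
    have h2 := (hP b (hC b hb)).2.2.1
    rw [hab, h2] at h1
    have ha0 := hC a ha
    have hb0 := hC b hb
    exact ((sq_eq_sq₀ hb0.le ha0.le).1 h1).symm
  have hSu : ¬ (Pf '' C).Countable := fun h => hCu (Set.countable_of_injective_of_countable_image hinj h)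
  obtain ⟨y, ⟨c', hc', rfl⟩, u, hu, hlim⟩ := hAcc _ hSu
  choose c hcC hcu using fun n => (hu n).1
  have hR : ∀ n, Rig f (c n) (Pf (c n)) := fun n => hP _ (hC _ (hcC n))
  have hR' : Rig f c' (Pf c') := hP _ (hC _ hc')
  have hg := fun n => hGroup f (c n) c' (Pf (c n)) (Pf c') (hC _ (hcC n)) (hC _ hc') (hR n) hR'
  have hlim' : Tendsto (fun n => Pf (c n)) atTop (𝓝 (Pf c')) := by
    have : (fun n => Pf (c n)) = u := funext hcu
    rw [this]
    exact hlim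
  obtain ⟨X, hX0, hX1, hX2, φ, hφ, e, he, he0, hlimX⟩ := hLim c' c
    (fun n => comp (inv (Pf c')) (Pf (c n))) (hC _ hc') (fun n => (hg n).2.1)
    (fun n => (hg n).2.2.2.2.1 (by rw [hcu n]; exact (hu n).2)) (hCont _ _ hR'.1.1 hlim')
  exact ⟨c', hc', fun n => c (φ n), fun n => hcC _, X, hX0, hX1, hX2, e, he, he0, hlimX⟩

theorem diff_of_local_affine (f : ℝ → ℝ) (x₀ m δ b : ℝ)
    (h : ∀ x, |x - x₀| < δ → f x = b + m * (x - x₀)) :
    ∀ x, |x - x₀| < δ → DifferentiableAt ℝ f x := by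
  intro x hx
  have hopen : ∀ᶠ y in 𝓝 x, |y - x₀| < δ := by
    have : Continuous (fun y : ℝ => |y - x₀|) := by fun_prop
    exact this.continuousAt.eventually (gt_mem_nhds hx)
  have heq : f =ᶠ[𝓝 x] fun y => b + m * (y - x₀) := hopen.mono fun y hy => h y hy
  rw [heq.differentiableAt_iff]
  fun_prop

theorem partA (hAcc : TaskAcc) (hInv : TaskInvAut) (hGroup : TaskGroup) (hCont : TaskCont)
    (hLim : TaskLim) (hODE : TaskODE) (hFlow : TaskFlow) (hConj : TaskConj) (hRegA : TaskRegA)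
    (hRegB : TaskRegB) (hVert : TaskVert) (hLine : TaskLine)
    (f : ℝ → ℝ) (Pf : ℝ → Fin 6 → ℝ) (hP : ∀ c, 0 < c → Rig f c (Pf c)) (x₀ : ℝ)
    (hx₀ : ContinuousAt f x₀) :
    ∃ δ : ℝ, 0 < δ ∧ ∀ x, |x - x₀| < δ → DifferentiableAt ℝ f x := by
  have hun : ¬ (Set.Ioi (0 : ℝ)).Countable := by
    intro h
    have h1 := h.measure_zero MeasureTheory.volume
    rw [Real.volume_Ioi] at h1
    exact ENNReal.top_ne_zero h1
  obtain ⟨c', hc', c, hc, X, hX, hX0, hX1, e, he, he0, hlimX⟩ :=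
    accum hAcc hGroup hCont hLim f Pf hP (Set.Ioi 0) (fun c hc => hc) hun
  have hc'0 : 0 < c' := hc'
  have hg := fun n => hGroup f (c n) c' (Pf (c n)) (Pf c') (hc n) hc' (hP _ (hc n)) (hP _ hc')
  have hK : Inv (closure (gr f)) X := by
    refine hFlow (closure (gr f)) X (fun n => comp (inv (Pf c')) (Pf (c n))) e isClosed_closure
      (fun n => (hg n).1.1) (fun n p hp => closure_maps f _ (hg n).1 p hp)
      (fun n p hp => closure_maps f _ (hInv f _ (hg n).1).1 p hp) he he0 hlimX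
  by_cases h1 : (fd X (x₀, f x₀)).1 = 0
  swap
  · exact hRegA hODE f x₀ X hx₀ hK h1
  by_cases h2 : (fd X (x₀, f x₀)).2 = 0
  swap
  · exact (hRegB hODE f x₀ X hx₀ hK h1 h2).elim
  by_cases hall : ∀ c : ℝ, 0 < c → ax (Pf c) x₀ (f x₀) = x₀
  · obtain ⟨m, δ, hδ, hm⟩ := hLine f x₀ hx₀ (fun c hc => ⟨Pf c, hP c hc, hall c hc⟩)
    exact ⟨δ, hδ, diff_of_local_affine f x₀ m δ (f x₀) hm⟩
  push Not at hall
  obtain ⟨c₁, hc₁, hne⟩ := hall
  obtain ⟨Y, hY, hYX⟩ := hConj f (Pf c₁) X (hP c₁ hc₁).1 hK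
  by_cases h3 : (fd Y (x₀, f x₀)).1 = 0
  swap
  · exact hRegA hODE f x₀ Y hx₀ hY h3
  by_cases h4 : (fd Y (x₀, f x₀)).2 = 0
  swap
  · exact (hRegB hODE f x₀ Y hx₀ hY h3 h4).elim
  obtain ⟨h5, h6⟩ := hYX x₀ (f x₀)
  rw [h3, h4] at h5 h6
  set x₁ := ax (Pf c₁) x₀ (f x₀) with hx₁
  set y₁ := ay (Pf c₁) x₀ (f x₀) with hy₁
  simp only [fd] at h1 h2 h5 h6
  rw [hX0] at h1 h5
  have hX3 : X 3 = 0 := by
    by_contra hX3
    have hX1' : X 1 ≠ 0 := by
      rw [hX1]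
      have : c' ^ 2 * X 3 ≠ 0 := mul_ne_zero (by positivity) hX3
      exact neg_ne_zero.2 this
    have e1 : X 1 * (y₁ - f x₀) = 0 := by linarith
    have e2 : y₁ - f x₀ = 0 := (mul_eq_zero.1 e1).resolve_left hX1'
    have e3 : X 3 * (x₁ - x₀) = 0 := by
      have : y₁ = f x₀ := by linarith
      rw [this] at h6
      linarith
    have e4 := (mul_eq_zero.1 e3).resolve_left hX3
    exact hne (by linarith)
  have hX1' : X 1 = 0 := by rw [hX1, hX3]; ring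
  have hX2 : X 2 = 0 := by
    rw [hX1'] at h1
    linarith
  have hX5 : X 5 = -(X 4 * f x₀) := by
    rw [hX3] at h2
    linarith
  have hX4 : X 4 ≠ 0 := by
    intro hX4
    apply hX
    have hX5' : X 5 = 0 := by rw [hX5, hX4]; ring
    funext i
    fin_cases i <;> simp [hX0, hX1', hX2, hX3, hX4, hX5']
  have hXe : X = ![0, 0, 0, 0, X 4, -(X 4 * f x₀)] := by
    funext i
    fin_cases i <;> simp [hX0, hX1', hX2, hX3, hX5]
  rw [hXe] at hK
  obtain ⟨δ, hδ, hm⟩ := hVert f x₀ (X 4) hx₀ hX4 hK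
  refine ⟨δ, hδ, diff_of_local_affine f x₀ 0 δ (f x₀) (fun x hx => ?_)⟩
  rw [hm x hx]; ring

theorem not_countable_diff_singleton {C : Set ℝ} (h : ¬ C.Countable) (a : ℝ) :
    ¬ (C \ {a}).Countable := by
  intro h'
  apply h
  have : C ⊆ (C \ {a}) ∪ {a} := by
    intro x hx
    by_cases hxa : x = a
    · right; exact hxa
    · left; exact ⟨hx, hxa⟩
  exact (h'.union (Set.countable_singleton a)).mono this

theorem exists_mem_of_not_countable {C : Set ℝ} (h : ¬ C.Countable) : ∃ x, x ∈ C := by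
  by_contra hcon
  push Not at hcon
  apply h
  have : C = ∅ := Set.eq_empty_of_forall_notMem hcon
  rw [this]
  exact Set.countable_empty

/-- the case of a ray -/
theorem ray_case (hRay : TaskRayForm) (hShear : TaskShear) (f : ℝ → ℝ) (I : Set ℝ) (m n : ℝ)
    (hIo : IsOpen I) (hIc : I.OrdConnected) (hIn : I.Nonempty) (hIu : I ≠ Set.univ) (hm : m ≠ 0)
    (hf : ∀ x ∈ I, f x = m * x + n) (c₀ c₁ c₂ : ℝ) (h0 : 0 < c₀) (h1 : 0 < c₁) (h2 : 0 < c₂)
    (h10 : c₁ ≠ c₀) (h20 : c₂ ≠ c₀) (h12 : c₁ ≠ c₂) (N₁ N₂ : Fin 6 → ℝ)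
    (r1 : Rel c₁ c₀ N₁) (r2 : Rel c₂ c₀ N₂) (a1 : Aut f N₁) (a2 : Aut f N₂) (d1 : 0 < dt N₁)
    (d2 : 0 < dt N₂) (i1 : (fun x => ax N₁ x (f x)) '' I = I)
    (i2 : (fun x => ax N₂ x (f x)) '' I = I) : ∀ x, f x = m * x + n := by
  obtain ⟨s, hs, l₁, μ₁, ν₁, hl₁, hν₁, hμ₁, e1, F1⟩ :=
    hRay f I m n c₁ c₀ N₁ hIo hIc hIn hIu hm hf h1 h0 h10 r1 a1 d1 i1
  obtain ⟨s', hs', l₂, μ₂, ν₂, hl₂, hν₂, hμ₂, e2, F2⟩ :=
    hRay f I m n c₂ c₀ N₂ hIo hIc hIn hIu hm hf h2 h0 h20 r2 a2 d2 i2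
  have hss : s' = s := by
    rcases hs with hs | hs <;> rcases hs' with hs' | hs'
    · rw [hs] at hs'
      exact (Set.Ioi_inj.1 hs').symm
    · exfalso
      rw [hs] at hs'
      have : max s s' + 1 ∈ Set.Ioi s := by
        rw [Set.mem_Ioi]
        have := le_max_left s s'
        linarith
      rw [hs', Set.mem_Iio] at this
      have := le_max_right s s'
      linarith
    · exfalso
      rw [hs] at hs'
      have : max s s' + 1 ∈ Set.Ioi s' := by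
        rw [Set.mem_Ioi]
        have := le_max_right s s'
        linarith
      rw [← hs', Set.mem_Iio] at this
      have := le_max_left s s'
      linarith
    · rw [hs] at hs'
      exact (Set.Iio_inj.1 hs').symm
  subst hss
  set h : ℝ → ℝ := fun u => f (s' + u) - (m * (s' + u) + n) with hh
  have hfu : ∀ u, f (s' + u) = m * (s' + u) + n + h u := by
    intro u
    simp only [hh]
    ring
  have hz : (∀ u, 0 < u → h u = 0) ∨ ∀ u, u < 0 → h u = 0 := by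
    rcases hs with hs | hs
    · left
      intro u hu
      have : s' + u ∈ I := by rw [hs, Set.mem_Ioi]; linarith
      simp only [hh]
      rw [hf _ this]; ring
    · right
      intro u hu
      have : s' + u ∈ I := by rw [hs, Set.mem_Iio]; linarith
      simp only [hh]
      rw [hf _ this]; ring
  have key : ∀ (N : Fin 6 → ℝ) (l μ ν : ℝ), Aut f N →
      (∀ u y : ℝ, ax N (s' + u) (m * (s' + u) + n + y) = s' + (l * u + μ * y) ∧
        ay N (s' + u) (m * (s' + u) + n + y) = m * (s' + (l * u + μ * y)) + n + ν * y) →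
      (∀ u, h (l * u + μ * h u) = ν * h u) ∧ Function.Surjective fun u => l * u + μ * h u := by
    intro N l μ ν hN hF
    constructor
    · intro u
      have e3 := hN.2.1 (s' + u)
      rw [hfu u, (hF u (h u)).1, (hF u (h u)).2] at e3
      have e4 := hfu (l * u + μ * h u)
      linarith
    · intro z
      obtain ⟨x, hx⟩ := hN.2.2 (s' + z)
      refine ⟨x - s', ?_⟩
      have e3 := (hF (x - s') (h (x - s'))).1
      rw [← hfu, show s' + (x - s') = x by ring] at e3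
      simp only at hx ⊢
      linarith
  obtain ⟨k1, k2⟩ := key N₁ l₁ μ₁ ν₁ a1 F1
  obtain ⟨k3, k4⟩ := key N₂ l₂ μ₂ ν₂ a2 F2
  have hnc : μ₂ * (l₁ - ν₁) ≠ μ₁ * (l₂ - ν₂) := by
    intro hcon
    have e5 : μ₁ * μ₂ * c₂ * (c₁ * c₀ * m ^ 2 - 1) = μ₁ * μ₂ * c₁ * (c₂ * c₀ * m ^ 2 - 1) := by
      calc μ₁ * μ₂ * c₂ * (c₁ * c₀ * m ^ 2 - 1) = μ₂ * c₂ * (μ₁ * (c₁ * c₀ * m ^ 2 - 1)) := by ring
        _ = μ₂ * c₂ * (c₁ * c₀ * m * (l₁ - ν₁)) := by rw [e1]
        _ = c₁ * c₂ * c₀ * m * (μ₂ * (l₁ - ν₁)) := by ring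
        _ = c₁ * c₂ * c₀ * m * (μ₁ * (l₂ - ν₂)) := by rw [hcon]
        _ = μ₁ * c₁ * (c₂ * c₀ * m * (l₂ - ν₂)) := by ring
        _ = μ₁ * c₁ * (μ₂ * (c₂ * c₀ * m ^ 2 - 1)) := by rw [e2]
        _ = μ₁ * μ₂ * c₁ * (c₂ * c₀ * m ^ 2 - 1) := by ring
    have e6 : μ₁ * μ₂ * (c₁ - c₂) = 0 := by linear_combination e5
    rcases mul_eq_zero.1 e6 with h' | h'
    · rcases mul_eq_zero.1 h' with h'' | h''
      · exact hμ₁ h''
      · exact hμ₂ h''
    · exact h12 (by linarith)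
  have hzero := hShear h l₁ μ₁ ν₁ l₂ μ₂ ν₂ hz hl₁.ne' hν₁.ne' hl₂.ne' hν₂.ne' hnc k1 k3 k2 k4
  intro x
  have e7 := hfu (x - s')
  rw [hzero, show s' + (x - s') = x by ring] at e7
  linarith

theorem final (hIso : TaskIso) (hAcc : TaskAcc) (hInv : TaskInvAut) (hGroup : TaskGroup)
    (hCont : TaskCont) (hLim : TaskLim) (hODE : TaskODE) (hFlow : TaskFlow) (hConj : TaskConj)
    (hRegA : TaskRegA) (hRegB : TaskRegB) (hVert : TaskVert) (hLine : TaskLine)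
    (hAutD : TaskAutD) (hComp : TaskComp) (hTan : TaskTan) (hOdeB : TaskOdeB) (hOdeC : TaskOdeC)
    (hExp : TaskExp) (hConst : TaskConst) (hRay : TaskRayForm) (hShear : TaskShear) : Final := by
  intro f hf hx
  obtain ⟨x₀, hx₀⟩ := hx
  have hex : ∀ c : ℝ, ∃ P : Fin 6 → ℝ, 0 < c → Rig f c P := by
    intro c
    by_cases hc : 0 < c
    · obtain ⟨P, hP⟩ := hIso f hf c hc
      exact ⟨P, fun _ => hP⟩
    · exact ⟨0, fun h => absurd h hc⟩
  choose Pf hP using hex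
  have hA : ∀ x, ContinuousAt f x → ∃ δ : ℝ, 0 < δ ∧ ∀ y, |y - x| < δ → DifferentiableAt ℝ f y :=
    fun x hx => partA hAcc hInv hGroup hCont hLim hODE hFlow hConj hRegA hRegB hVert hLine f Pf hP
      x hx
  have hDc : x₀ ∈ Dc f := by
    obtain ⟨δ, hδ, h⟩ := hA x₀ hx₀
    have : ∀ᶠ y in 𝓝 x₀, |y - x₀| < δ := by
      have hc : Continuous (fun y : ℝ => |y - x₀|) := by fun_prop
      exact hc.continuousAt.eventually (gt_mem_nhds (by simpa using hδ))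
    exact this.mono fun y hy => (h y hy).continuousAt
  set I := connectedComponentIn (Dc f) x₀ with hI
  have hDo : IsOpen (Dc f) := isOpen_setOfPred_eventually_nhds
  have hIo : IsOpen I := hDo.connectedComponentIn
  have hIc : I.OrdConnected := isPreconnected_connectedComponentIn.ordConnected
  have hIn : I.Nonempty := ⟨x₀, mem_connectedComponentIn hDc⟩
  have hId : ∀ x ∈ I, DifferentiableAt ℝ f x := by
    intro x hx
    have h1 : x ∈ Dc f := connectedComponentIn_subset _ _ hx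
    have h2 : ContinuousAt f x := h1.self_of_nhds
    obtain ⟨δ, hδ, h⟩ := hA x h2
    exact h x (by simpa using hδ)
  obtain ⟨C, hC0, hCu, hC⟩ := hComp hAutD hInv f x₀ hDc Pf (fun c hc => (hP c hc).1)
  rw [← hI] at hC
  have hG := fun (c c' : ℝ) (hc : c ∈ C) (hc' : c' ∈ C) =>
    hGroup f c c' (Pf c) (Pf c') (hC0 c hc) (hC0 c' hc') (hP c (hC0 c hc)) (hP c' (hC0 c' hc'))
  have hIm : ∀ c ∈ C, ∀ c' ∈ C,
      (fun x => ax (comp (inv (Pf c')) (Pf c)) x (f x)) '' I = I :=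
    fun c hc c' hc' => hC c hc c' hc' _ (hG c c' hc hc').2.2.2.2.2
  -- tangent fields
  have htan : ∀ C' : Set ℝ, C' ⊆ C → ¬ C'.Countable → ∃ c' ∈ C', ∃ X : Fin 6 → ℝ, X ≠ 0 ∧
      X 0 = 0 ∧ X 1 = -(c' ^ 2 * X 3) ∧
      ∀ x ∈ I, deriv f x * (fd X (x, f x)).1 = (fd X (x, f x)).2 := by
    intro C' hC' hCu'
    obtain ⟨c', hc', c, hc, X, hX, hX0, hX1, e, he, he0, hlimX⟩ :=
      accum hAcc hGroup hCont hLim f Pf hP C' (fun c hc => hC0 c (hC' hc)) hCu'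
    refine ⟨c', hc', X, hX, hX0, hX1, ?_⟩
    exact hTan f I X (fun n => comp (inv (Pf c')) (Pf (c n))) e hId
      (fun n x _ => (hG (c n) c' (hC' (hc n)) (hC' hc')).1.2.1 x) he he0 hlimX
  obtain ⟨c₁, hc₁, X, hX, hX0, hX1, hXt⟩ := htan C subset_rfl hCu
  obtain ⟨c₂, hc₂', Y, hY, hY0, hY1, hYt⟩ := htan (C \ {c₁}) Set.sdiff_subset
    (not_countable_diff_singleton hCu c₁)
  have hc₂ : c₂ ∈ C := hc₂'.1
  have hne : c₂ ≠ c₁ := hc₂'.2
  have hode : ∀ (c : ℝ) (Z : Fin 6 → ℝ), Z ≠ 0 → Z 0 = 0 → Z 1 = -(c ^ 2 * Z 3) → Z 3 = 0 →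
      (∀ x ∈ I, deriv f x * (fd Z (x, f x)).1 = (fd Z (x, f x)).2) →
      (∃ m n : ℝ, ∀ x ∈ I, f x = m * x + n) ∨
        ∃ a b κ : ℝ, b ≠ 0 ∧ κ ≠ 0 ∧ ∀ x ∈ I, f x = a + b * Real.exp (κ * x) := by
    intro c Z hZ hZ0 hZ1 hZ3 hZt
    have hZ1' : Z 1 = 0 := by rw [hZ1, hZ3]; ring
    refine hOdeB f I (Z 2) (Z 4) (Z 5) hIo hIc hIn hId ?_ ?_
    · by_contra hcon
      push Not at hcon
      obtain ⟨q1, q2, q3⟩ := hcon
      apply hZ
      funext i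
      fin_cases i <;> simp [hZ0, hZ1', hZ3, q1, q2, q3]
    · intro x hx
      have := hZt x hx
      simp only [fd, hZ0, hZ1', hZ3] at this
      linarith
  have hform : (∃ m n : ℝ, ∀ x ∈ I, f x = m * x + n) ∨
        ∃ a b κ : ℝ, b ≠ 0 ∧ κ ≠ 0 ∧ ∀ x ∈ I, f x = a + b * Real.exp (κ * x) := by
    by_cases hX3 : X 3 = 0
    · exact hode c₁ X hX hX0 hX1 hX3 hXt
    by_cases hY3 : Y 3 = 0
    · exact hode c₂ Y hY hY0 hY1 hY3 hYt
    left
    exact hOdeC f I X Y c₁ c₂ hIo hIc hIn hId (hC0 _ hc₁) (hC0 _ hc₂) hne.symm hX0 hX1 hX3 hY0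
      hY1 hY3 hXt hYt
  rcases hform with ⟨m, n, hmn⟩ | ⟨a, b, κ, hb, hκ, habk⟩
  · left
    by_cases hIu : I = Set.univ
    · refine ⟨n, m, fun x => ?_⟩
      rw [hmn x (by rw [hIu]; trivial)]; ring
    by_cases hm : m = 0
    · refine ⟨n, 0, fun x => ?_⟩
      have hr := (hG c₁ c₂ hc₁ hc₂)
      rw [hConst f I n c₁ c₂ _ hIo hIc hIn hIu (fun x hx => by rw [hmn x hx, hm]; ring)
        (hC0 _ hc₁) (hC0 _ hc₂) hne.symm hr.2.1 hr.1 (hIm c₁ hc₁ c₂ hc₂) x]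
      ring
    · -- rays
      have hsgn : ∃ C' : Set ℝ, C' ⊆ C ∧ ¬ C'.Countable ∧
          ∀ c ∈ C', ∀ c' ∈ C', 0 < dt (Pf c) / dt (Pf c') := by
        by_cases hpos : ({c ∈ C | 0 < dt (Pf c)} : Set ℝ).Countable
        · refine ⟨{c ∈ C | ¬ 0 < dt (Pf c)}, fun c hc => hc.1, ?_, ?_⟩
          · intro h
            apply hCu
            refine (hpos.union h).mono ?_
            intro c hc
            by_cases h' : 0 < dt (Pf c)
            · left; exact ⟨hc, h'⟩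
            · right; exact ⟨hc, h'⟩
          · intro c hc c' hc'
            have n1 : dt (Pf c) < 0 :=
              lt_of_le_of_ne (not_lt.1 hc.2) (hP c (hC0 c hc.1)).1.1
            have n2 : dt (Pf c') < 0 :=
              lt_of_le_of_ne (not_lt.1 hc'.2) (hP c' (hC0 c' hc'.1)).1.1
            exact div_pos_of_neg_of_neg n1 n2
        · exact ⟨{c ∈ C | 0 < dt (Pf c)}, fun c hc => hc.1, hpos,
            fun c hc c' hc' => div_pos hc.2 hc'.2⟩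
      obtain ⟨C', hC'C, hC'u, hC'd⟩ := hsgn
      obtain ⟨a₀, ha₀⟩ := exists_mem_of_not_countable hC'u
      have hu1 := not_countable_diff_singleton hC'u a₀
      obtain ⟨a₁, ha₁⟩ := exists_mem_of_not_countable hu1
      have hu2 := not_countable_diff_singleton hu1 a₁
      obtain ⟨a₂, ha₂⟩ := exists_mem_of_not_countable hu2
      have m0 : a₀ ∈ C := hC'C ha₀
      have m1 : a₁ ∈ C := hC'C ha₁.1
      have m2 : a₂ ∈ C := hC'C ha₂.1.1
      have n10 : a₁ ≠ a₀ := ha₁.2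
      have n20 : a₂ ≠ a₀ := ha₂.1.2
      have n21 : a₂ ≠ a₁ := ha₂.2
      have g1 := hG a₁ a₀ m1 m0
      have g2 := hG a₂ a₀ m2 m0
      refine ⟨n, m, fun x => ?_⟩
      rw [ray_case hRay hShear f I m n hIo hIc hIn hIu hm hmn a₀ a₁ a₂ (hC0 _ m0) (hC0 _ m1)
        (hC0 _ m2) n10 n20 n21.symm _ _ g1.2.1 g2.2.1 g1.1 g2.1
        (by rw [g1.2.2.1]; exact hC'd a₁ ha₁.1 a₀ ha₀)
        (by rw [g2.2.2.1]; exact hC'd a₂ ha₂.1.1 a₀ ha₀)
        (hIm a₁ m1 a₀ m0) (hIm a₂ m2 a₀ m0) x]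
      ring
  · right
    have g := hG c₁ c₂ hc₁ hc₂
    have g' := hG c₂ c₁ hc₂ hc₁
    have p1 := hC0 _ hc₁
    have p2 := hC0 _ hc₂
    have hIu : I = Set.univ := by
      refine hExp f I a b κ (comp (inv (Pf c₂)) (Pf c₁)) hIo hIc hIn hb hκ habk g.1.1 ?_
        (fun x _ => g.1.2.1 x) (hIm c₁ hc₁ c₂ hc₂)
      rw [g.2.2.1, div_pow, g.2.2.2.1, g'.2.2.2.1]
      intro hcon
      rw [div_eq_one_iff_eq (by positivity)] at hcon
      have : c₁ = c₂ := by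
        have := abs_eq_abs.1 ((sq_eq_sq_iff_abs_eq_abs _ _).1 hcon)
        rcases this with h | h
        · exact h
        · linarith
      exact hne this.symm
    exact ⟨a, b, κ, fun x => habk x (by rw [hIu]; trivial)⟩

end H12VR
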