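import Pool.Agent.H12R3.VR.Stmts

set_option autoImplicit false

open Filter Topology

namespace H12VR

theorem const_of_deriv_zero (g : ℝ → ℝ) (I : Set ℝ) (hIo : IsOpen I) (hIc : I.OrdConnected)
    (hd : ∀ x ∈ I, DifferentiableAt ℝ g x) (h0 : ∀ x ∈ I, deriv g x = 0) :
    ∀ x ∈ I, ∀ y ∈ I, g x = g y := by
  intro x hx y hy
  have hconv : Convex ℝ I := hIc.convex
  refine hIo.is_const_of_deriv_eq_zero (𝕜 := ℝ) hconv.isPreconnected
    (fun z hz => (hd z hz).differentiableWithinAt) (fun z hz => h0 z hz) hx hy

theorem taskOdeB : TaskOdeB := by
  intro f I w k v hIo hIc hIn hd hne h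
  obtain ⟨x₁, hx₁⟩ := hIn
  by_cases hw : w = 0
  · left
    by_cases hk : k = 0
    · exfalso
      have := h x₁ hx₁
      rw [hw, hk] at this
      have hv : v = 0 := by linarith
      rcases hne with h' | h' | h'
      · exact h' hw
      · exact h' hk
      · exact h' hv
    · refine ⟨0, -(v / k), fun x hx => ?_⟩
      have := h x hx
      rw [hw] at this
      field_simp
      linarith
  · by_cases hk : k = 0
    · left
      have hder : ∀ x ∈ I, deriv f x = v / w := by
        intro x hx
        have := h x hx
        rw [hk] at this
        field_simp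
        linarith
      have hc := const_of_deriv_zero (fun x => f x - (v / w) * x) I hIo hIc
        (fun x hx => (hd x hx).sub (by fun_prop)) (fun x hx => by
          have h1 : HasDerivAt (fun x => f x - (v / w) * x) (deriv f x - (v / w) * 1) x :=
            (hd x hx).hasDerivAt.sub ((hasDerivAt_id x).const_mul (v / w))
          rw [h1.deriv, hder x hx]; ring)
      refine ⟨v / w, f x₁ - (v / w) * x₁, fun x hx => ?_⟩
      have := hc x hx x₁ hx₁
      linarith
    · have hder : ∀ x ∈ I, deriv f x = (k * f x + v) / w := by
        intro x hx
        have := h x hx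
        field_simp
        linarith
      have hc := const_of_deriv_zero (fun x => (f x + v / k) * Real.exp (-(k / w) * x)) I hIo hIc
        (fun x hx => ((hd x hx).add (by fun_prop)).mul (by fun_prop)) (fun x hx => by
          have h1 : HasDerivAt (fun x => f x + v / k) (deriv f x) x :=
            (hd x hx).hasDerivAt.add_const _
          have h2 : HasDerivAt (fun x => Real.exp (-(k / w) * x))
              (Real.exp (-(k / w) * x) * (-(k / w) * 1)) x :=
            ((hasDerivAt_id x).const_mul (-(k / w))).exp
          have h3 : HasDerivAt (fun x => (f x + v / k) * Real.exp (-(k / w) * x))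
              (deriv f x * Real.exp (-(k / w) * x) +
                (f x + v / k) * (Real.exp (-(k / w) * x) * (-(k / w) * 1))) x := h1.mul h2
          rw [h3.deriv, hder x hx]
          field_simp
          ring)
      by_cases hb : (f x₁ + v / k) = 0
      · left
        refine ⟨0, -(v / k), fun x hx => ?_⟩
        have := hc x hx x₁ hx₁
        rw [hb, zero_mul] at this
        have h3 := (mul_eq_zero.1 this).resolve_right (Real.exp_ne_zero _)
        linarith
      · right
        refine ⟨-(v / k), (f x₁ + v / k) * Real.exp (-(k / w) * x₁), k / w,
          mul_ne_zero hb (Real.exp_ne_zero _), div_ne_zero hk hw, fun x hx => ?_⟩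
        have := hc x hx x₁ hx₁
        rw [← this, mul_assoc, ← Real.exp_add]
        have : -(k / w) * x + k / w * x = 0 := by ring
        rw [this, Real.exp_zero]
        ring

end H12VR
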