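import Pool.Agent.H12R3.VR.Stmts

set_option autoImplicit false

open Filter Topology

namespace H12VR

theorem line_closure {f : ℝ → ℝ} {x₀ : ℝ} (hf : ContinuousAt f x₀) {p : ℝ × ℝ}
    (hp : p ∈ closure (gr f)) (h : p.1 = x₀) : p = (x₀, f x₀) := by
  obtain ⟨u, hu, hlim⟩ := mem_closure_iff_seq_limit.1 hp
  have h1 : Tendsto (fun n => (u n).1) atTop (𝓝 x₀) := by
    rw [← h]
    exact (continuous_fst.tendsto p).comp hlim
  have h2 : Tendsto (fun n => (u n).2) atTop (𝓝 p.2) := (continuous_snd.tendsto p).comp hlim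
  have h3 : Tendsto (fun n => f (u n).1) atTop (𝓝 (f x₀)) := hf.tendsto.comp h1
  have h4 : (fun n => f (u n).1) = fun n => (u n).2 := by
    funext n
    exact (hu n).symm
  rw [h4] at h3
  exact Prod.ext h (tendsto_nhds_unique h2 h3)

theorem taskRegB : TaskRegB := by
  intro hODE f x₀ X hf hInv hX1 hX2
  obtain ⟨Φ, hΦ0, hΦadd, hΦc, hΦd, -⟩ := hODE X
  set K := closure (gr f) with hK
  have hKq : ∀ q ∈ K, ∀ t, Φ t q ∈ K := by
    intro q hq t
    exact hInv (fun t => Φ t q) (fun t => hΦd q t) (by rw [hΦ0]; exact hq) t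
  have hgr : ∀ x, (x, f x) ∈ K := fun x => subset_closure rfl
  set p₀ : ℝ × ℝ := (x₀, f x₀) with hp₀
  have hct : ∀ q : ℝ × ℝ, Continuous fun t => Φ t q := fun q =>
    hΦc.comp (continuous_id.prodMk continuous_const)
  -- coordinates of the orbit of `p₀`
  have hd1 : ∀ (q : ℝ × ℝ) (t : ℝ), HasDerivAt (fun t => (Φ t q).1) (fd X (Φ t q)).1 t :=
    fun q t => (hΦd q t).fst
  have hd2 : ∀ (q : ℝ × ℝ) (t : ℝ), HasDerivAt (fun t => (Φ t q).2) (fd X (Φ t q)).2 t :=
    fun q t => (hΦd q t).snd
  set μ : ℝ := (fd X p₀).2 with hμ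
  by_cases hX : X 1 = 0
  · -- the vertical line is invariant
    have hz : X 0 * x₀ + X 2 = 0 := by
      have := hX1
      simp only [fd, hX] at this
      linarith
    have hconst : ∀ t, (Φ t p₀).1 = x₀ := by
      intro t
      have hder : ∀ t, HasDerivAt (fun t => ((Φ t p₀).1 - x₀) * Real.exp (-(X 0 * t))) 0 t := by
        intro t
        have e1 : HasDerivAt (fun t => (Φ t p₀).1 - x₀) (fd X (Φ t p₀)).1 t :=
          (hd1 p₀ t).sub_const x₀
        have e2 : HasDerivAt (fun t : ℝ => Real.exp (-(X 0 * t)))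
            (Real.exp (-(X 0 * t)) * (-(X 0 * 1))) t :=
          (((hasDerivAt_id t).const_mul (X 0)).neg).exp
        have e3 := e1.mul e2
        have e4 : (fd X (Φ t p₀)).1 * Real.exp (-(X 0 * t)) +
            ((Φ t p₀).1 - x₀) * (Real.exp (-(X 0 * t)) * (-(X 0 * 1))) = 0 := by
          simp only [fd, hX]
          have : X 2 = -(X 0 * x₀) := by linarith
          rw [this]
          ring
        exact e3.congr_deriv e4
      have hdiff : Differentiable ℝ (fun t => ((Φ t p₀).1 - x₀) * Real.exp (-(X 0 * t))) :=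
        fun t => (hder t).differentiableAt
      have hc := is_const_of_deriv_eq_zero hdiff (fun t => (hder t).deriv) t 0
      simp only [hΦ0] at hc
      have h0 : p₀.1 - x₀ = 0 := by simp [hp₀]
      rw [h0, zero_mul] at hc
      rcases mul_eq_zero.1 hc with h | h
      · linarith
      · exact absurd h (Real.exp_pos _).ne'
    have hpt : ∀ t, Φ t p₀ = p₀ := fun t =>
      line_closure hf (hKq p₀ (hgr x₀) t) (hconst t)
    have h0 : HasDerivAt (fun t => (Φ t p₀).2) μ 0 := by
      have := hd2 p₀ 0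
      rwa [hΦ0] at this
    have h1 : (fun t => (Φ t p₀).2) = fun _ => p₀.2 := by
      funext t
      rw [hpt t]
    rw [h1] at h0
    have := h0.unique (hasDerivAt_const (0 : ℝ) p₀.2)
    exact hX2 this
  · set a : ℝ := X 1 * μ with ha
    have ha0 : a ≠ 0 := mul_ne_zero hX hX2
    have haa : 0 < a * a := mul_self_pos.2 ha0
    -- the derivative of the first coordinate
    have hg : HasDerivAt (fun t => a * (fd X (Φ t p₀)).1) (a * a) 0 := by
      have e1 := (hd1 p₀ 0).const_mul (X 0)
      have e2 := (hd2 p₀ 0).const_mul (X 1)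
      have e3 := (((e1.add e2).add_const (X 2)).const_mul a)
      have e4 : a * (X 0 * (fd X (Φ 0 p₀)).1 + X 1 * (fd X (Φ 0 p₀)).2) = a * a := by
        rw [hΦ0, hX1, mul_zero, zero_add]
      exact e3.congr_deriv e4
    have hslope := hasDerivAt_iff_tendsto_slope.1 hg
    have hev1 : ∀ᶠ t in 𝓝[≠] (0 : ℝ), 0 < slope (fun t => a * (fd X (Φ t p₀)).1) 0 t :=
      hslope.eventually (lt_mem_nhds haa)
    have hev2 : ∀ᶠ t in 𝓝 (0 : ℝ), 0 < μ * (fd X (Φ t p₀)).2 := by
      have hc : Continuous fun t => μ * (fd X (Φ t p₀)).2 := by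
        have h1 : Continuous fun t => (Φ t p₀).1 := continuous_fst.comp (hct p₀)
        have h2 : Continuous fun t => (Φ t p₀).2 := continuous_snd.comp (hct p₀)
        simp only [fd]
        fun_prop
      have h0 : 0 < μ * (fd X (Φ 0 p₀)).2 := by
        rw [hΦ0]
        have : μ ≠ 0 := hX2
        exact mul_self_pos.2 this
      exact hc.continuousAt.eventually (lt_mem_nhds h0)
    rw [eventually_nhdsWithin_iff, Metric.eventually_nhds_iff] at hev1
    rw [Metric.eventually_nhds_iff] at hev2
    obtain ⟨ε1, hε1, h1⟩ := hev1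
    obtain ⟨ε2, hε2, h2⟩ := hev2
    set ε := min ε1 ε2 with hε
    have hεpos : 0 < ε := lt_min hε1 hε2
    have hs1 : ∀ t, 0 < t → t < ε → 0 < a * (fd X (Φ t p₀)).1 := by
      intro t ht ht'
      have h3 := h1 (y := t) (by rw [Real.dist_eq, sub_zero, abs_of_pos ht]; exact ht'.trans_le (min_le_left _ _))
        (by simp [ht.ne'])
      rw [slope_def_field, hΦ0, hX1, mul_zero, sub_zero, sub_zero] at h3
      exact (div_pos_iff_of_pos_right ht).1 h3
    have hs2 : ∀ t, t < 0 → -ε < t → a * (fd X (Φ t p₀)).1 < 0 := by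
      intro t ht ht'
      have h3 := h1 (y := t) (by
        rw [Real.dist_eq, sub_zero, abs_of_neg ht]
        exact (by linarith : -t < ε).trans_le (min_le_left _ _)) (by simp [ht.ne])
      rw [slope_def_field, hΦ0, hX1, mul_zero, sub_zero, sub_zero] at h3
      rcases div_pos_iff.1 h3 with h4 | h4
      · linarith [h4.2]
      · exact h4.1
    have hs3 : ∀ t, |t| < ε → 0 < μ * (fd X (Φ t p₀)).2 := by
      intro t ht
      exact h2 (by rw [Real.dist_eq, sub_zero]; exact ht.trans_le (min_le_right _ _))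
    set t1 : ℝ := ε / 3 with ht1
    have ht1pos : 0 < t1 := by positivity
    -- the first coordinate at `± t1`
    have hF1 : 0 < a * ((Φ t1 p₀).1 - x₀) := by
      have hm : StrictMonoOn (fun t => a * ((Φ t p₀).1 - x₀)) (Set.Icc 0 t1) := by
        apply strictMonoOn_of_deriv_pos (convex_Icc _ _)
        · have h1 : Continuous fun t => (Φ t p₀).1 := continuous_fst.comp (hct p₀)
          fun_prop
        · intro t ht
          rw [interior_Icc] at ht
          rw [(((hd1 p₀ t).sub_const x₀).const_mul a).deriv]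
          exact hs1 t ht.1 (by have := ht.2; linarith)
      have := hm (Set.left_mem_Icc.2 ht1pos.le) (Set.right_mem_Icc.2 ht1pos.le) ht1pos
      simp only [hΦ0, hp₀, sub_self, mul_zero] at this
      exact this
    have hF2 : 0 < a * ((Φ (-t1) p₀).1 - x₀) := by
      have hm : StrictAntiOn (fun t => a * ((Φ t p₀).1 - x₀)) (Set.Icc (-t1) 0) := by
        apply strictAntiOn_of_deriv_neg (convex_Icc _ _)
        · have h1 : Continuous fun t => (Φ t p₀).1 := continuous_fst.comp (hct p₀)
          fun_prop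
        · intro t ht
          rw [interior_Icc] at ht
          rw [(((hd1 p₀ t).sub_const x₀).const_mul a).deriv]
          exact hs2 t ht.2 (by have := ht.1; linarith)
      have := hm (Set.left_mem_Icc.2 (by linarith)) (Set.right_mem_Icc.2 (by linarith))
        (by linarith : -t1 < 0)
      simp only [hΦ0, hp₀, sub_self, mul_zero] at this
      exact this
    -- the second coordinate does not return
    have hret : ∀ s, 0 < s → s < 2 * t1 → Φ s p₀ ≠ p₀ := by
      intro s hs hs' he
      have hm : StrictMonoOn (fun t => μ * (Φ t p₀).2) (Set.Icc 0 s) := by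
        apply strictMonoOn_of_deriv_pos (convex_Icc _ _)
        · have h1 : Continuous fun t => (Φ t p₀).2 := continuous_snd.comp (hct p₀)
          fun_prop
        · intro t ht
          rw [interior_Icc] at ht
          rw [((hd2 p₀ t).const_mul μ).deriv]
          exact hs3 t (by rw [abs_of_pos ht.1]; have := ht.2; linarith)
      have := hm (Set.left_mem_Icc.2 hs.le) (Set.right_mem_Icc.2 hs.le) hs
      simp only [hΦ0, he] at this
      exact lt_irrefl _ this
    -- a nearby starting point on the other side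
    have hcont : ∀ t, ContinuousAt (fun x => a * ((Φ t (x, f x)).1 - x₀)) x₀ := by
      intro t
      have h1 : ContinuousAt (fun x => (x, f x)) x₀ := continuousAt_id.prodMk hf
      have h2 : Continuous fun q : ℝ × ℝ => Φ t q :=
        hΦc.comp (continuous_const.prodMk continuous_id)
      have h3 : ContinuousAt (fun x => Φ t (x, f x)) x₀ :=
        ContinuousAt.comp (g := fun q : ℝ × ℝ => Φ t q) h2.continuousAt h1
      have h4 : ContinuousAt (fun x => (Φ t (x, f x)).1) x₀ := h3.fst
      exact continuousAt_const.mul (h4.sub continuousAt_const)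
    have hx1 : ∀ᶠ x in 𝓝 x₀, 0 < a * ((Φ t1 (x, f x)).1 - x₀) :=
      (hcont t1).eventually (lt_mem_nhds hF1)
    have hx2 : ∀ᶠ x in 𝓝 x₀, 0 < a * ((Φ (-t1) (x, f x)).1 - x₀) :=
      (hcont (-t1)).eventually (lt_mem_nhds hF2)
    have htend : Tendsto (fun δ : ℝ => x₀ - a * δ) (𝓝[>] 0) (𝓝 x₀) := by
      have : Tendsto (fun δ : ℝ => x₀ - a * δ) (𝓝 0) (𝓝 (x₀ - a * 0)) :=
        (Continuous.tendsto (by fun_prop) 0)
      rw [mul_zero, sub_zero] at this
      exact this.mono_left nhdsWithin_le_nhds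
    obtain ⟨δ, ⟨hδ1, hδ2⟩, hδ⟩ :=
      (((htend.eventually (hx1.and hx2))).and self_mem_nhdsWithin).exists
    have hδ' : 0 < δ := hδ
    set x : ℝ := x₀ - a * δ with hx
    set q : ℝ × ℝ := (x, f x) with hq
    have hG0 : a * ((Φ 0 q).1 - x₀) < 0 := by
      rw [hΦ0]
      have : a * (q.1 - x₀) = -(a * a * δ) := by simp only [hq, hx]; ring
      rw [this]
      have := mul_pos haa hδ'
      linarith
    have hGc : Continuous fun t => a * ((Φ t q).1 - x₀) := by
      have h1 : Continuous fun t => (Φ t q).1 := continuous_fst.comp (hct q)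
      fun_prop
    obtain ⟨tp, htp, hep⟩ := intermediate_value_Ioo ht1pos.le hGc.continuousOn
      (show (0 : ℝ) ∈ Set.Ioo (a * ((Φ 0 q).1 - x₀)) (a * ((Φ t1 q).1 - x₀)) from ⟨hG0, hδ1⟩)
    obtain ⟨tm, htm, hem⟩ := intermediate_value_Ioo' (by linarith : -t1 ≤ 0) hGc.continuousOn
      (show (0 : ℝ) ∈ Set.Ioo (a * ((Φ 0 q).1 - x₀)) (a * ((Φ (-t1) q).1 - x₀)) from ⟨hG0, hδ2⟩)
    have hpp : Φ tp q = p₀ := by
      apply line_closure hf (hKq q (hgr x) tp)
      have := (mul_eq_zero.1 hep).resolve_left ha0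
      linarith
    have hpm : Φ tm q = p₀ := by
      apply line_closure hf (hKq q (hgr x) tm)
      have := (mul_eq_zero.1 hem).resolve_left ha0
      linarith
    have hret2 : Φ (tp - tm) p₀ = p₀ := by
      rw [← hpm, ← hΦadd, sub_add_cancel, hpp, hpm]
    exact hret (tp - tm) (by linarith [htp.1, htm.2]) (by linarith [htp.2, htm.1]) hret2

end H12VR
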