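import Pool.Agent.H12R3.VR.Stmts

/-!
# H12-VR, T8: invariance under the flow of a limit of small affine maps
-/

set_option autoImplicit false

open Filter Topology

namespace H12VR

namespace FlowAux

/-- the affine map -/
def G (N : Fin 6 → ℝ) (p : ℝ × ℝ) : ℝ × ℝ := (ax N p.1 p.2, ay N p.1 p.2)

theorem abs_le_pi (X : Fin 6 → ℝ) (i : Fin 6) : |X i| ≤ ‖X‖ := by
  have := norm_le_pi_norm X i
  rwa [Real.norm_eq_abs] at this

theorem fd_sub (X : Fin 6 → ℝ) (p q : ℝ × ℝ) : ‖fd X p - fd X q‖ ≤ 2 * ‖X‖ * ‖p - q‖ := by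
  have h1 : |p.1 - q.1| ≤ ‖p - q‖ := by
    have := norm_fst_le (p - q)
    simpa [Real.norm_eq_abs] using this
  have h2 : |p.2 - q.2| ≤ ‖p - q‖ := by
    have := norm_snd_le (p - q)
    simpa [Real.norm_eq_abs] using this
  have key : ∀ a b : ℝ, |a| ≤ ‖X‖ → |b| ≤ ‖X‖ →
      |a * (p.1 - q.1) + b * (p.2 - q.2)| ≤ 2 * ‖X‖ * ‖p - q‖ := by
    intro a b ha hb
    have ha' : |a * (p.1 - q.1)| ≤ ‖X‖ * ‖p - q‖ := by
      rw [abs_mul]; exact mul_le_mul ha h1 (abs_nonneg _) (norm_nonneg _)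
    have hb' : |b * (p.2 - q.2)| ≤ ‖X‖ * ‖p - q‖ := by
      rw [abs_mul]; exact mul_le_mul hb h2 (abs_nonneg _) (norm_nonneg _)
    calc |a * (p.1 - q.1) + b * (p.2 - q.2)| ≤ |a * (p.1 - q.1)| + |b * (p.2 - q.2)| :=
          abs_add_le _ _
      _ ≤ 2 * ‖X‖ * ‖p - q‖ := by linarith
  have e1 : (fd X p - fd X q).1 = X 0 * (p.1 - q.1) + X 1 * (p.2 - q.2) := by
    simp only [fd, Prod.fst_sub]; ring
  have e2 : (fd X p - fd X q).2 = X 3 * (p.1 - q.1) + X 4 * (p.2 - q.2) := by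
    simp only [fd, Prod.snd_sub]; ring
  rw [Prod.norm_def, Real.norm_eq_abs, Real.norm_eq_abs, e1, e2]
  exact max_le (key _ _ (abs_le_pi X 0) (abs_le_pi X 1)) (key _ _ (abs_le_pi X 3) (abs_le_pi X 4))

theorem fd_norm (X : Fin 6 → ℝ) (p : ℝ × ℝ) : ‖fd X p‖ ≤ ‖X‖ * (2 * ‖p‖ + 1) := by
  have h1 : |p.1| ≤ ‖p‖ := by
    have := norm_fst_le p
    rwa [Real.norm_eq_abs] at this
  have h2 : |p.2| ≤ ‖p‖ := by
    have := norm_snd_le p
    rwa [Real.norm_eq_abs] at this
  have key : ∀ a b c : ℝ, |a| ≤ ‖X‖ → |b| ≤ ‖X‖ → |c| ≤ ‖X‖ →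
      |a * p.1 + b * p.2 + c| ≤ ‖X‖ * (2 * ‖p‖ + 1) := by
    intro a b c ha hb hc
    have ha' : |a * p.1| ≤ ‖X‖ * ‖p‖ := by
      rw [abs_mul]; exact mul_le_mul ha h1 (abs_nonneg _) (norm_nonneg _)
    have hb' : |b * p.2| ≤ ‖X‖ * ‖p‖ := by
      rw [abs_mul]; exact mul_le_mul hb h2 (abs_nonneg _) (norm_nonneg _)
    calc |a * p.1 + b * p.2 + c| ≤ |a * p.1 + b * p.2| + |c| := abs_add_le _ _
      _ ≤ |a * p.1| + |b * p.2| + |c| := by
        have := abs_add_le (a * p.1) (b * p.2)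
        linarith
      _ ≤ ‖X‖ * (2 * ‖p‖ + 1) := by linarith
  rw [Prod.norm_def, Real.norm_eq_abs, Real.norm_eq_abs]
  exact max_le (key _ _ _ (abs_le_pi X 0) (abs_le_pi X 1) (abs_le_pi X 2))
    (key _ _ _ (abs_le_pi X 3) (abs_le_pi X 4) (abs_le_pi X 5))

theorem fd_sub_left (X Y : Fin 6 → ℝ) (p : ℝ × ℝ) : fd Y p - fd X p = fd (Y - X) p := by
  ext <;> simp only [fd, Prod.fst_sub, Prod.snd_sub, Pi.sub_apply] <;> ring

theorem fd_neg (X : Fin 6 → ℝ) (p : ℝ × ℝ) : fd (-X) p = -fd X p := by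
  ext <;> simp only [fd, Prod.fst_neg, Prod.snd_neg, Pi.neg_apply] <;> ring

theorem G_eq (N : Fin 6 → ℝ) (e : ℝ) (he : e ≠ 0) (p : ℝ × ℝ) :
    G N p = p + e • fd (e⁻¹ • (N - id6)) p := by
  ext
  · simp only [G, ax, fd, id6, Prod.fst_add, Prod.smul_fst, Pi.smul_apply, Pi.sub_apply,
      smul_eq_mul, Matrix.cons_val]
    field_simp
    ring
  · simp only [G, ay, fd, id6, Prod.snd_add, Prod.smul_snd, Pi.smul_apply, Pi.sub_apply,
      smul_eq_mul, Matrix.cons_val]
    field_simp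
    ring

/-- discrete Gronwall -/
theorem gron (E : ℕ → ℝ) (L e δ : ℝ) (hL : 0 ≤ L) (he : 0 ≤ e) (hδ : 0 ≤ δ) (h0 : E 0 ≤ 0)
    (K : ℕ) (h : ∀ k < K, E (k + 1) ≤ (1 + L * e) * E k + e * δ) :
    ∀ k ≤ K, E k ≤ k * e * δ * (1 + L * e) ^ k := by
  intro k
  induction k with
  | zero => intro _; simpa using h0
  | succ k ih =>
    intro hk
    have h1 := ih (by omega)
    have h2 := h k (by omega)
    have hLe : 0 ≤ L * e := mul_nonneg hL he
    have h3 : (1:ℝ) ≤ (1 + L * e) ^ (k + 1) := one_le_pow₀ (by linarith)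
    have h4 : (1 + L * e) * E k ≤ (1 + L * e) * (k * e * δ * (1 + L * e) ^ k) :=
      mul_le_mul_of_nonneg_left h1 (by linarith)
    have h5 : e * δ ≤ e * δ * (1 + L * e) ^ (k + 1) :=
      le_mul_of_one_le_right (mul_nonneg he hδ) h3
    push_cast
    calc E (k + 1) ≤ (1 + L * e) * (k * e * δ * (1 + L * e) ^ k) + e * δ * (1 + L * e) ^ (k + 1) := by
          linarith
      _ = _ := by ring

/-- the forward statement -/
theorem fwd (K : Set (ℝ × ℝ)) (X : Fin 6 → ℝ) (N : ℕ → Fin 6 → ℝ) (e : ℕ → ℝ)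
    (hK : IsClosed K) (hN : ∀ n, ∀ p ∈ K, G (N n) p ∈ K) (he : ∀ n, 0 < e n)
    (he0 : Tendsto e atTop (𝓝 0)) (hX : Tendsto (fun n => (e n)⁻¹ • (N n - id6)) atTop (𝓝 X))
    (γ : ℝ → ℝ × ℝ) (hγ : ∀ t, HasDerivAt γ (fd X (γ t)) t) (h0 : γ 0 ∈ K) (T : ℝ) (hT : 0 ≤ T) :
    γ T ∈ K := by
  have hc : Continuous γ := continuous_iff_continuousAt.2 fun t => (hγ t).continuousAt
  obtain ⟨M, hM⟩ : ∃ M, ∀ s ∈ Set.Icc (0:ℝ) (T + 1), ‖γ s‖ ≤ M := by
    obtain ⟨M, hM⟩ := (isCompact_Icc (a := (0:ℝ)) (b := T + 1)).exists_bound_of_continuousOn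
      hc.continuousOn
    exact ⟨M, hM⟩
  have hM0 : 0 ≤ M := (norm_nonneg _).trans (hM 0 ⟨le_rfl, by linarith⟩)
  set V : ℝ := ‖X‖ * (2 * M + 1) with hV
  have hV0 : 0 ≤ V := by positivity
  have hder : ∀ s ∈ Set.Icc (0:ℝ) (T + 1), ‖fd X (γ s)‖ ≤ V := by
    intro s hs
    refine (fd_norm X (γ s)).trans ?_
    have := hM s hs
    exact mul_le_mul_of_nonneg_left (by linarith) (norm_nonneg _)
  have hlip : ∀ s ∈ Set.Icc (0:ℝ) (T + 1), ∀ u ∈ Set.Icc (0:ℝ) (T + 1),
      ‖γ u - γ s‖ ≤ V * ‖u - s‖ := by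
    intro s hs u hu
    exact Convex.norm_image_sub_le_of_norm_hasDerivWithin_le
      (fun x _ => (hγ x).hasDerivWithinAt) hder (convex_Icc _ _) hs hu
  -- local error
  have hloc : ∀ s h : ℝ, 0 ≤ s → s ≤ T → 0 ≤ h → h ≤ 1 →
      ‖γ (s + h) - γ s - h • fd X (γ s)‖ ≤ 2 * ‖X‖ * V * h * h := by
    intro s h hs hsT hh hh1
    have hs1 : s ∈ Set.Icc (0:ℝ) (T + 1) := ⟨hs, by linarith⟩
    let g : ℝ → ℝ × ℝ := fun u => γ (s + u) - u • fd X (γ s)
    have hg : ∀ u ∈ Set.Icc (0:ℝ) h, HasDerivWithinAt g (fd X (γ (s + u)) - fd X (γ s))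
        (Set.Icc (0:ℝ) h) u := by
      intro u _
      have h1 : HasDerivAt (fun u => γ (s + u)) (fd X (γ (s + u))) u := by
        have h2 := (hγ (s + u)).scomp u ((hasDerivAt_id u).const_add s)
        rw [one_smul] at h2
        exact h2
      have h3 : HasDerivAt (fun u : ℝ => u • fd X (γ s)) (fd X (γ s)) u := by
        have := (hasDerivAt_id u).smul_const (fd X (γ s))
        simpa using this
      exact (h1.sub h3).hasDerivWithinAt
    have hb : ∀ u ∈ Set.Icc (0:ℝ) h, ‖fd X (γ (s + u)) - fd X (γ s)‖ ≤ 2 * ‖X‖ * V * h := by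
      intro u hu
      have hsu : s + u ∈ Set.Icc (0:ℝ) (T + 1) := ⟨by linarith [hu.1], by linarith [hu.2]⟩
      have h1 := hlip s hs1 (s + u) hsu
      have h2 := fd_sub X (γ (s + u)) (γ s)
      have h3 : ‖s + u - s‖ ≤ h := by
        rw [add_sub_cancel_left, Real.norm_eq_abs, abs_of_nonneg hu.1]; exact hu.2
      have h4 : V * ‖s + u - s‖ ≤ V * h := mul_le_mul_of_nonneg_left h3 hV0
      have h5 : 2 * ‖X‖ * ‖γ (s + u) - γ s‖ ≤ 2 * ‖X‖ * (V * h) :=
        mul_le_mul_of_nonneg_left (h1.trans h4) (by positivity)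
      linarith
    have hfin := Convex.norm_image_sub_le_of_norm_hasDerivWithin_le hg hb (convex_Icc _ _)
      (Set.left_mem_Icc.2 hh) (Set.right_mem_Icc.2 hh)
    have e1 : g h - g 0 = γ (s + h) - γ s - h • fd X (γ s) := by
      simp only [g, add_zero, zero_smul, sub_zero]; abel
    rw [e1, sub_zero, Real.norm_eq_abs, abs_of_nonneg hh] at hfin
    exact hfin
  -- the discrete orbits
  let Y : ℕ → Fin 6 → ℝ := fun n => (e n)⁻¹ • (N n - id6)
  let kk : ℕ → ℕ := fun n => ⌊T / e n⌋₊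
  let P : ℕ → ℝ × ℝ := fun n => (G (N n))^[kk n] (γ 0)
  have hmem : ∀ n k, (G (N n))^[k] (γ 0) ∈ K := by
    intro n k
    induction k with
    | zero => exact h0
    | succ k ih =>
      rw [Function.iterate_succ_apply']
      exact hN n _ ih
  set L : ℝ := 2 * (‖X‖ + 1) with hLdef
  have hL0 : 0 ≤ L := by positivity
  have hYX : Tendsto (fun n => ‖Y n - X‖) atTop (𝓝 0) := by
    have := (hX.sub_const X).norm
    simpa using this
  let bd : ℕ → ℝ := fun n =>
    T * (2 * ‖X‖ * V * e n + ‖Y n - X‖ * (2 * M + 1)) * Real.exp (L * T) + V * e n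
  have hbd : Tendsto bd atTop (𝓝 0) := by
    have h1 : Tendsto (fun n => 2 * ‖X‖ * V * e n + ‖Y n - X‖ * (2 * M + 1)) atTop (𝓝 0) := by
      have := (he0.const_mul (2 * ‖X‖ * V)).add (hYX.mul_const (2 * M + 1))
      simpa using this
    have h2 := ((h1.const_mul T).mul_const (Real.exp (L * T))).add (he0.const_mul V)
    simpa [bd] using h2
  have hmain : ∀ᶠ n in atTop, ‖P n - γ T‖ ≤ bd n := by
    have h1 : ∀ᶠ n in atTop, ‖Y n - X‖ < 1 := (tendsto_order.1 hYX).2 1 one_pos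
    have h2 : ∀ᶠ n in atTop, e n < 1 := (tendsto_order.1 he0).2 1 one_pos
    filter_upwards [h1, h2] with n hn1 hn2
    have hen := he n
    set δ : ℝ := 2 * ‖X‖ * V * e n + ‖Y n - X‖ * (2 * M + 1) with hδ
    have hδ0 : 0 ≤ δ := by positivity
    have hYn : ‖Y n‖ ≤ ‖X‖ + 1 := by
      have : ‖Y n‖ ≤ ‖Y n - X‖ + ‖X‖ := by
        have := norm_add_le (Y n - X) X
        rwa [sub_add_cancel] at this
      linarith
    have hkT : ∀ k : ℕ, k ≤ kk n → (k:ℝ) * e n ≤ T := by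
      intro k hk
      have h3 : ((kk n : ℕ) : ℝ) ≤ T / e n := Nat.floor_le (div_nonneg hT hen.le)
      have h4 : (k:ℝ) ≤ kk n := by exact_mod_cast hk
      exact (le_div_iff₀ hen).1 (h4.trans h3)
    let E : ℕ → ℝ := fun k => ‖(G (N n))^[k] (γ 0) - γ (k * e n)‖
    have hE := gron E L (e n) δ hL0 hen.le hδ0 (by simp [E]) (kk n) (by
      intro k hk
      simp only [E]
      have hks : (k:ℝ) * e n ≤ T := hkT k hk.le
      have hk0 : 0 ≤ (k:ℝ) * e n := by positivity
      set p := (G (N n))^[k] (γ 0)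
      set s : ℝ := (k:ℝ) * e n with hs
      have e1 : (((k + 1 : ℕ) : ℝ)) * e n = s + e n := by rw [hs]; push_cast; ring
      rw [Function.iterate_succ_apply', e1]
      change ‖G (N n) p - γ (s + e n)‖ ≤ _
      have e2 : G (N n) p - γ (s + e n) =
          ((p - γ s) + e n • (fd (Y n) p - fd (Y n) (γ s))) + (e n • fd (Y n - X) (γ s) -
            (γ (s + e n) - γ s - e n • fd X (γ s))) := by
        rw [G_eq (N n) (e n) hen.ne' p, ← fd_sub_left]
        change p + e n • fd (Y n) p - γ (s + e n) = _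
        simp only [smul_sub]
        abel
      rw [e2]
      have h3 : ‖e n • (fd (Y n) p - fd (Y n) (γ s))‖ ≤ e n * (L * ‖p - γ s‖) := by
        rw [norm_smul, Real.norm_eq_abs, abs_of_pos hen]
        refine mul_le_mul_of_nonneg_left ?_ hen.le
        refine (fd_sub (Y n) p (γ s)).trans ?_
        refine mul_le_mul_of_nonneg_right ?_ (norm_nonneg _)
        rw [hLdef]; linarith
      have h4 : ‖e n • fd (Y n - X) (γ s)‖ ≤ e n * (‖Y n - X‖ * (2 * M + 1)) := by
        rw [norm_smul, Real.norm_eq_abs, abs_of_pos hen]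
        refine mul_le_mul_of_nonneg_left ?_ hen.le
        refine (fd_norm _ _).trans ?_
        have := hM s ⟨hk0, by linarith⟩
        exact mul_le_mul_of_nonneg_left (by linarith) (norm_nonneg _)
      have h5 := hloc s (e n) hk0 hks hen.le hn2.le
      have h6 := norm_add_le ((p - γ s) + e n • (fd (Y n) p - fd (Y n) (γ s)))
        (e n • fd (Y n - X) (γ s) - (γ (s + e n) - γ s - e n • fd X (γ s)))
      have h7 := norm_add_le (p - γ s) (e n • (fd (Y n) p - fd (Y n) (γ s)))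
      have h8 := norm_sub_le (e n • fd (Y n - X) (γ s)) (γ (s + e n) - γ s - e n • fd X (γ s))
      have h9 : (1 + L * e n) * ‖p - γ s‖ + e n * δ =
          ‖p - γ s‖ + e n * (L * ‖p - γ s‖) + (e n * (‖Y n - X‖ * (2 * M + 1)) +
            2 * ‖X‖ * V * e n * e n) := by rw [hδ]; ring
      rw [h9]
      linarith)
    have hEk := hE (kk n) le_rfl
    have hke := hkT (kk n) le_rfl
    have h10 : ((kk n : ℕ) : ℝ) * e n * δ * (1 + L * e n) ^ (kk n) ≤ T * δ * Real.exp (L * T) := by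
      have h11 : (1 + L * e n) ^ (kk n) ≤ Real.exp (L * T) := by
        calc (1 + L * e n) ^ (kk n) ≤ (Real.exp (L * e n)) ^ (kk n) := by
              refine pow_le_pow_left₀ (by positivity) ?_ _
              have := Real.add_one_le_exp (L * e n)
              linarith
          _ = Real.exp ((kk n : ℕ) * (L * e n)) := by rw [Real.exp_nat_mul]
          _ ≤ Real.exp (L * T) := by
              refine Real.exp_le_exp.2 ?_
              have := mul_le_mul_of_nonneg_left hke hL0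
              linarith
      have h12 : ((kk n : ℕ) : ℝ) * e n * δ ≤ T * δ := mul_le_mul_of_nonneg_right hke hδ0
      exact mul_le_mul h12 h11 (by positivity) (by positivity)
    have hlast : ‖γ ((kk n : ℕ) * e n) - γ T‖ ≤ V * e n := by
      have h13 : T < ((kk n : ℕ) + 1) * e n := by
        have := Nat.lt_floor_add_one (T / e n)
        rwa [div_lt_iff₀ hen] at this
      have h14 := hlip T ⟨hT, by linarith⟩ ((kk n : ℕ) * e n) ⟨by positivity, by linarith⟩
      refine h14.trans (mul_le_mul_of_nonneg_left ?_ hV0)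
      rw [Real.norm_eq_abs, abs_le]
      constructor
      · nlinarith
      · linarith
    have h15 : ‖P n - γ T‖ ≤ ‖P n - γ ((kk n : ℕ) * e n)‖ + ‖γ ((kk n : ℕ) * e n) - γ T‖ := by
      have := norm_add_le (P n - γ ((kk n : ℕ) * e n)) (γ ((kk n : ℕ) * e n) - γ T)
      rwa [sub_add_sub_cancel] at this
    have h16 : ‖P n - γ ((kk n : ℕ) * e n)‖ ≤ T * δ * Real.exp (L * T) := hEk.trans h10
    change ‖P n - γ T‖ ≤ T * δ * Real.exp (L * T) + V * e n
    linarith
  have hlim : Tendsto P atTop (𝓝 (γ T)) := by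
    rw [tendsto_iff_norm_sub_tendsto_zero]
    exact squeeze_zero' (Eventually.of_forall fun n => norm_nonneg _) hmain hbd
  exact hK.mem_of_tendsto hlim (Eventually.of_forall fun n => hmem n (kk n))

theorem inv_lim (X : Fin 6 → ℝ) (N : ℕ → Fin 6 → ℝ) (e : ℕ → ℝ) (hd : ∀ n, dt (N n) ≠ 0)
    (he : ∀ n, 0 < e n) (he0 : Tendsto e atTop (𝓝 0))
    (hX : Tendsto (fun n => (e n)⁻¹ • (N n - id6)) atTop (𝓝 X)) :
    Tendsto (fun n => (e n)⁻¹ • (inv (N n) - id6)) atTop (𝓝 (-X)) := by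
  have hy : ∀ i, Tendsto (fun n => (e n)⁻¹ * (N n i - id6 i)) atTop (𝓝 (X i)) := by
    intro i
    have := (tendsto_pi_nhds.1 hX) i
    simpa using this
  have hNi : ∀ i, Tendsto (fun n => N n i) atTop (𝓝 (id6 i)) := by
    intro i
    have h1 := (he0.mul (hy i)).add_const (id6 i)
    rw [zero_mul, zero_add] at h1
    refine h1.congr fun n => ?_
    have := (he n).ne'
    field_simp
    ring
  have i0 : id6 0 = 1 := rfl
  have i1 : id6 1 = 0 := rfl
  have i2 : id6 2 = 0 := rfl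
  have i3 : id6 3 = 0 := rfl
  have i4 : id6 4 = 1 := rfl
  have i5 : id6 5 = 0 := rfl
  have hdt : Tendsto (fun n => dt (N n)) atTop (𝓝 1) := by
    have := ((hNi 0).mul (hNi 4)).sub ((hNi 1).mul (hNi 3))
    rw [i0, i1, i3, i4] at this
    simpa [dt] using this
  rw [tendsto_pi_nhds]
  intro i
  have hy0 := hy 0
  have hy1 := hy 1
  have hy2 := hy 2
  have hy3 := hy 3
  have hy4 := hy 4
  have hy5 := hy 5
  have n0 := hNi 0
  have n1 := hNi 1
  have n3 := hNi 3
  have n4 := hNi 4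
  rw [i0] at hy0 n0
  rw [i1] at hy1 n1
  rw [i2] at hy2
  rw [i3] at hy3 n3
  rw [i4] at hy4 n4
  rw [i5] at hy5
  fin_cases i
  · have h := (((n4.mul hy0).neg.add (n1.mul hy3))).div hdt one_ne_zero
    have e1 : (-(1 * X 0) + 0 * X 3) / 1 = (-X) 0 := by simp
    rw [e1] at h
    refine h.congr fun n => ?_
    have h1 := (he n).ne'
    have h2 := hd n
    change _ = (e n)⁻¹ * (N n 4 / dt (N n) - 1)
    simp only [Pi.div_apply]
    field_simp
    simp only [dt]
    ring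
  · have h := hy1.neg.div hdt one_ne_zero
    have e1 : -X 1 / 1 = (-X) 1 := by simp
    rw [e1] at h
    refine h.congr fun n => ?_
    have h1 := (he n).ne'
    have h2 := hd n
    change _ = (e n)⁻¹ * (-N n 1 / dt (N n) - 0)
    simp only [Pi.div_apply]
    field_simp
    ring
  · have h := ((n1.mul hy5).sub (n4.mul hy2)).div hdt one_ne_zero
    have e1 : (0 * X 5 - 1 * X 2) / 1 = (-X) 2 := by simp
    rw [e1] at h
    refine h.congr fun n => ?_
    have h1 := (he n).ne'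
    have h2 := hd n
    change _ = (e n)⁻¹ * ((N n 1 * N n 5 - N n 4 * N n 2) / dt (N n) - 0)
    simp only [Pi.div_apply]
    field_simp
    ring
  · have h := hy3.neg.div hdt one_ne_zero
    have e1 : -X 3 / 1 = (-X) 3 := by simp
    rw [e1] at h
    refine h.congr fun n => ?_
    have h1 := (he n).ne'
    have h2 := hd n
    change _ = (e n)⁻¹ * (-N n 3 / dt (N n) - 0)
    simp only [Pi.div_apply]
    field_simp
    ring
  · have h := (((n0.mul hy4).neg.add (n1.mul hy3))).div hdt one_ne_zero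
    have e1 : (-(1 * X 4) + 0 * X 3) / 1 = (-X) 4 := by simp
    rw [e1] at h
    refine h.congr fun n => ?_
    have h1 := (he n).ne'
    have h2 := hd n
    change _ = (e n)⁻¹ * (N n 0 / dt (N n) - 1)
    simp only [Pi.div_apply]
    field_simp
    simp only [dt]
    ring
  · have h := ((n3.mul hy2).sub (n0.mul hy5)).div hdt one_ne_zero
    have e1 : (0 * X 2 - 1 * X 5) / 1 = (-X) 5 := by simp
    rw [e1] at h
    refine h.congr fun n => ?_
    have h1 := (he n).ne'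
    have h2 := hd n
    change _ = (e n)⁻¹ * ((N n 3 * N n 2 - N n 0 * N n 5) / dt (N n) - 0)
    simp only [Pi.div_apply]
    field_simp
    ring

end FlowAux

open FlowAux in
theorem taskFlow : TaskFlow := by
  intro K X N e hK hd hN hI he he0 hX γ hγ h0 t
  rcases le_total 0 t with ht | ht
  · exact fwd K X N e hK hN he he0 hX γ hγ h0 t ht
  · have h1 := fwd K (-X) (fun n => inv (N n)) e hK hI he he0 (inv_lim X N e hd he he0 hX)
      (fun s => γ (-s)) (fun s => by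
        have h2 := (hγ (-s)).scomp s (hasDerivAt_neg s)
        have h3 : HasDerivAt (fun s => γ (-s)) ((-1 : ℝ) • fd X (γ (-s))) s := h2
        rw [fd_neg]
        rw [neg_one_smul] at h3
        exact h3) (by simpa using h0) (-t) (by linarith)
    simpa using h1

end H12VR
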