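import Mathlib

/-!
# Project H12-VR (MP_1755e3_an, Q2): vertically rigid functions with a point of continuity

Every vertically rigid function with at least one point of continuity is `a + b x` or
`a + b exp (k x)` (everywhere, no measurability needed). Definitions and task statements.
Affine maps of the plane and affine vector fields are both given by six numbers `P : Fin 6 → ℝ`.
-/

set_option autoImplicit false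

open Filter Topology

namespace H12VR

/-- vertically rigid (as in the frozen statement) -/
def VRigid (f : ℝ → ℝ) : Prop :=
  ∀ c : ℝ, 0 < c → ∃ φ : EuclideanSpace ℝ (Fin 2) ≃ᵢ EuclideanSpace ℝ (Fin 2),
    φ '' Set.range (fun x : ℝ => (WithLp.toLp 2 ![x, c * f x] : EuclideanSpace ℝ (Fin 2)))
      = Set.range (fun x : ℝ => (WithLp.toLp 2 ![x, f x] : EuclideanSpace ℝ (Fin 2)))

/-- first coordinate of the affine map `P` at `(x, y)` -/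
def ax (P : Fin 6 → ℝ) (x y : ℝ) : ℝ := P 0 * x + P 1 * y + P 2

/-- second coordinate of the affine map `P` at `(x, y)` -/
def ay (P : Fin 6 → ℝ) (x y : ℝ) : ℝ := P 3 * x + P 4 * y + P 5

/-- determinant of the linear part -/
def dt (P : Fin 6 → ℝ) : ℝ := P 0 * P 4 - P 1 * P 3

/-- the identity map -/
def id6 : Fin 6 → ℝ := ![1, 0, 0, 0, 1, 0]

/-- composition: first `P`, then `Q` -/
def comp (Q P : Fin 6 → ℝ) : Fin 6 → ℝ :=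
  ![Q 0 * P 0 + Q 1 * P 3, Q 0 * P 1 + Q 1 * P 4, Q 0 * P 2 + Q 1 * P 5 + Q 2,
    Q 3 * P 0 + Q 4 * P 3, Q 3 * P 1 + Q 4 * P 4, Q 3 * P 2 + Q 4 * P 5 + Q 5]

/-- inverse of an affine map with `dt P ≠ 0` -/
noncomputable def inv (P : Fin 6 → ℝ) : Fin 6 → ℝ :=
  ![P 4 / dt P, -P 1 / dt P, (P 1 * P 5 - P 4 * P 2) / dt P,
    -P 3 / dt P, P 0 / dt P, (P 3 * P 2 - P 0 * P 5) / dt P]

/-- the affine map `P` maps the graph of `f` onto itself -/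
def Aut (f : ℝ → ℝ) (P : Fin 6 → ℝ) : Prop :=
  dt P ≠ 0 ∧ (∀ x, f (ax P x (f x)) = ay P x (f x)) ∧
    Function.Surjective (fun x => ax P x (f x))

/-- the affine map `P` is (isometry) ∘ (x, y) ↦ (x, c y) and preserves the graph -/
def Rig (f : ℝ → ℝ) (c : ℝ) (P : Fin 6 → ℝ) : Prop :=
  Aut f P ∧ P 0 ^ 2 + P 3 ^ 2 = 1 ∧ P 1 ^ 2 + P 4 ^ 2 = c ^ 2 ∧ P 0 * P 1 + P 3 * P 4 = 0

/-- the linear part of `N` is `diag(1,c')⁻¹ O diag(1,c)` with `O` orthogonal -/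
def Rel (c c' : ℝ) (N : Fin 6 → ℝ) : Prop :=
  N 0 ^ 2 + c' ^ 2 * N 3 ^ 2 = 1 ∧ N 1 ^ 2 + c' ^ 2 * N 4 ^ 2 = c ^ 2 ∧
    N 0 * N 1 + c' ^ 2 * (N 3 * N 4) = 0

/-- the affine vector field with coefficients `X` -/
def fd (X : Fin 6 → ℝ) (p : ℝ × ℝ) : ℝ × ℝ :=
  (X 0 * p.1 + X 1 * p.2 + X 2, X 3 * p.1 + X 4 * p.2 + X 5)

/-- `K` is invariant under the flow of the affine vector field `X` -/
def Inv (K : Set (ℝ × ℝ)) (X : Fin 6 → ℝ) : Prop :=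
  ∀ γ : ℝ → ℝ × ℝ, (∀ t, HasDerivAt γ (fd X (γ t)) t) → γ 0 ∈ K → ∀ t, γ t ∈ K

/-- the graph -/
def gr (f : ℝ → ℝ) : Set (ℝ × ℝ) := {p | p.2 = f p.1}

/-- the points near which `f` is continuous -/
def Dc (f : ℝ → ℝ) : Set ℝ := {x | ∀ᶠ y in 𝓝 x, ContinuousAt f y}

/-! ### Group tasks -/

/-- T1 -/
def TaskIso : Prop := ∀ f : ℝ → ℝ, VRigid f → ∀ c : ℝ, 0 < c → ∃ P : Fin 6 → ℝ, Rig f c P

/-- T2 -/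
def TaskAcc : Prop := ∀ S : Set (Fin 6 → ℝ), ¬ S.Countable →
  ∃ y ∈ S, ∃ u : ℕ → (Fin 6 → ℝ), (∀ n, u n ∈ S ∧ u n ≠ y) ∧ Tendsto u atTop (𝓝 y)

/-- T3 -/
def TaskInvAut : Prop := ∀ (f : ℝ → ℝ) (P : Fin 6 → ℝ), Aut f P →
  Aut f (inv P) ∧ ∀ x, ax (inv P) (ax P x (f x)) (f (ax P x (f x))) = x

/-- T4 -/
def TaskGroup : Prop := ∀ (f : ℝ → ℝ) (c c' : ℝ) (P P' : Fin 6 → ℝ), 0 < c → 0 < c' →
  Rig f c P → Rig f c' P' →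
  Aut f (comp (inv P') P) ∧ Rel c c' (comp (inv P') P) ∧
    dt (comp (inv P') P) = dt P / dt P' ∧ dt P ^ 2 = c ^ 2 ∧ (P ≠ P' → comp (inv P') P ≠ id6) ∧
    ∀ x, ax P' (ax (comp (inv P') P) x (f x)) (f (ax (comp (inv P') P) x (f x))) = ax P x (f x)

/-- T5 -/
def TaskCont : Prop := ∀ (P : Fin 6 → ℝ) (u : ℕ → Fin 6 → ℝ), dt P ≠ 0 →
  Tendsto u atTop (𝓝 P) → Tendsto (fun n => comp (inv P) (u n)) atTop (𝓝 id6)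

/-- T6 -/
def TaskLim : Prop := ∀ (c' : ℝ) (c : ℕ → ℝ) (N : ℕ → Fin 6 → ℝ), 0 < c' →
  (∀ n, Rel (c n) c' (N n)) → (∀ n, N n ≠ id6) → Tendsto N atTop (𝓝 id6) →
  ∃ X : Fin 6 → ℝ, X ≠ 0 ∧ X 0 = 0 ∧ X 1 = -(c' ^ 2 * X 3) ∧
    ∃ φ : ℕ → ℕ, StrictMono φ ∧ ∃ e : ℕ → ℝ, (∀ n, 0 < e n) ∧ Tendsto e atTop (𝓝 0) ∧
      Tendsto (fun n => (e n)⁻¹ • (N (φ n) - id6)) atTop (𝓝 X)

/-! ### Flow tasks -/

/-- T7 -/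
def TaskODE : Prop := ∀ X : Fin 6 → ℝ, ∃ Φ : ℝ → ℝ × ℝ → ℝ × ℝ,
  (∀ p, Φ 0 p = p) ∧ (∀ s t p, Φ (s + t) p = Φ s (Φ t p)) ∧ Continuous (Function.uncurry Φ) ∧
  (∀ p t, HasDerivAt (fun t => Φ t p) (fd X (Φ t p)) t) ∧
  ∀ γ : ℝ → ℝ × ℝ, (∀ t, HasDerivAt γ (fd X (γ t)) t) → ∀ t, γ t = Φ t (γ 0)

/-- T8 -/
def TaskFlow : Prop := ∀ (K : Set (ℝ × ℝ)) (X : Fin 6 → ℝ) (N : ℕ → Fin 6 → ℝ) (e : ℕ → ℝ),
  IsClosed K → (∀ n, dt (N n) ≠ 0) →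
  (∀ n, ∀ p ∈ K, (ax (N n) p.1 p.2, ay (N n) p.1 p.2) ∈ K) →
  (∀ n, ∀ p ∈ K, (ax (inv (N n)) p.1 p.2, ay (inv (N n)) p.1 p.2) ∈ K) →
  (∀ n, 0 < e n) → Tendsto e atTop (𝓝 0) →
  Tendsto (fun n => (e n)⁻¹ • (N n - id6)) atTop (𝓝 X) → Inv K X

/-- T9 -/
def TaskConj : Prop := ∀ (f : ℝ → ℝ) (P X : Fin 6 → ℝ), Aut f P → Inv (closure (gr f)) X →
  ∃ Y : Fin 6 → ℝ, Inv (closure (gr f)) Y ∧ ∀ x y : ℝ,
    P 0 * (fd Y (x, y)).1 + P 1 * (fd Y (x, y)).2 = (fd X (ax P x y, ay P x y)).1 ∧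
    P 3 * (fd Y (x, y)).1 + P 4 * (fd Y (x, y)).2 = (fd X (ax P x y, ay P x y)).2

/-- T10 -/
def TaskRegA : Prop := TaskODE → ∀ (f : ℝ → ℝ) (x₀ : ℝ) (X : Fin 6 → ℝ), ContinuousAt f x₀ →
  Inv (closure (gr f)) X → (fd X (x₀, f x₀)).1 ≠ 0 →
  ∃ δ : ℝ, 0 < δ ∧ ∀ x, |x - x₀| < δ → DifferentiableAt ℝ f x

/-- T11 -/
def TaskRegB : Prop := TaskODE → ∀ (f : ℝ → ℝ) (x₀ : ℝ) (X : Fin 6 → ℝ), ContinuousAt f x₀ →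
  Inv (closure (gr f)) X → (fd X (x₀, f x₀)).1 = 0 → (fd X (x₀, f x₀)).2 ≠ 0 → False

/-- T12 -/
def TaskVert : Prop := ∀ (f : ℝ → ℝ) (x₀ k : ℝ), ContinuousAt f x₀ → k ≠ 0 →
  Inv (closure (gr f)) ![0, 0, 0, 0, k, -(k * f x₀)] →
  ∃ δ : ℝ, 0 < δ ∧ ∀ x, |x - x₀| < δ → f x = f x₀

/-- T13 -/
def TaskLine : Prop := ∀ (f : ℝ → ℝ) (x₀ : ℝ), ContinuousAt f x₀ →
  (∀ c : ℝ, 0 < c → ∃ P, Rig f c P ∧ ax P x₀ (f x₀) = x₀) →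
  ∃ m δ : ℝ, 0 < δ ∧ ∀ x, |x - x₀| < δ → f x = f x₀ + m * (x - x₀)

/-! ### Components -/

/-- T14 -/
def TaskAutD : Prop := ∀ (f : ℝ → ℝ) (P : Fin 6 → ℝ), Aut f P → ∀ x ∈ Dc f, ax P x (f x) ∈ Dc f

/-- T15 -/
def TaskComp : Prop := TaskAutD → TaskInvAut → ∀ (f : ℝ → ℝ) (x₀ : ℝ), x₀ ∈ Dc f →
  ∀ Pf : ℝ → Fin 6 → ℝ, (∀ c, 0 < c → Aut f (Pf c)) →
  ∃ C : Set ℝ, (∀ c ∈ C, 0 < c) ∧ ¬ C.Countable ∧ ∀ c ∈ C, ∀ c' ∈ C, ∀ N : Fin 6 → ℝ,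
    (∀ x, ax (Pf c') (ax N x (f x)) (f (ax N x (f x))) = ax (Pf c) x (f x)) →
    (fun x => ax N x (f x)) '' connectedComponentIn (Dc f) x₀ = connectedComponentIn (Dc f) x₀

/-! ### Differential equations -/

/-- T16 -/
def TaskTan : Prop := ∀ (f : ℝ → ℝ) (I : Set ℝ) (X : Fin 6 → ℝ) (N : ℕ → Fin 6 → ℝ) (e : ℕ → ℝ),
  (∀ x ∈ I, DifferentiableAt ℝ f x) → (∀ n, ∀ x ∈ I, f (ax (N n) x (f x)) = ay (N n) x (f x)) →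
  (∀ n, 0 < e n) → Tendsto e atTop (𝓝 0) →
  Tendsto (fun n => (e n)⁻¹ • (N n - id6)) atTop (𝓝 X) →
  ∀ x ∈ I, deriv f x * (fd X (x, f x)).1 = (fd X (x, f x)).2

/-- T17 -/
def TaskOdeB : Prop := ∀ (f : ℝ → ℝ) (I : Set ℝ) (w k v : ℝ), IsOpen I → I.OrdConnected →
  I.Nonempty → (∀ x ∈ I, DifferentiableAt ℝ f x) → (w ≠ 0 ∨ k ≠ 0 ∨ v ≠ 0) →
  (∀ x ∈ I, deriv f x * w = k * f x + v) →
  (∃ m n : ℝ, ∀ x ∈ I, f x = m * x + n) ∨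
    ∃ a b κ : ℝ, b ≠ 0 ∧ κ ≠ 0 ∧ ∀ x ∈ I, f x = a + b * Real.exp (κ * x)

/-- T18 -/
def TaskOdeC : Prop := ∀ (f : ℝ → ℝ) (I : Set ℝ) (X Y : Fin 6 → ℝ) (c c' : ℝ), IsOpen I →
  I.OrdConnected → I.Nonempty → (∀ x ∈ I, DifferentiableAt ℝ f x) → 0 < c → 0 < c' → c ≠ c' →
  X 0 = 0 → X 1 = -(c ^ 2 * X 3) → X 3 ≠ 0 → Y 0 = 0 → Y 1 = -(c' ^ 2 * Y 3) → Y 3 ≠ 0 →
  (∀ x ∈ I, deriv f x * (fd X (x, f x)).1 = (fd X (x, f x)).2) →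
  (∀ x ∈ I, deriv f x * (fd Y (x, f x)).1 = (fd Y (x, f x)).2) →
  ∃ m n : ℝ, ∀ x ∈ I, f x = m * x + n

/-! ### From an interval to the line -/

/-- T19 -/
def TaskExp : Prop := ∀ (f : ℝ → ℝ) (I : Set ℝ) (a b κ : ℝ) (N : Fin 6 → ℝ), IsOpen I →
  I.OrdConnected → I.Nonempty → b ≠ 0 → κ ≠ 0 → (∀ x ∈ I, f x = a + b * Real.exp (κ * x)) →
  dt N ≠ 0 → dt N ^ 2 ≠ 1 → (∀ x ∈ I, f (ax N x (f x)) = ay N x (f x)) →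
  (fun x => ax N x (f x)) '' I = I → I = Set.univ

/-- T20 -/
def TaskConst : Prop := ∀ (f : ℝ → ℝ) (I : Set ℝ) (n c c' : ℝ) (N : Fin 6 → ℝ), IsOpen I →
  I.OrdConnected → I.Nonempty → I ≠ Set.univ → (∀ x ∈ I, f x = n) → 0 < c → 0 < c' → c ≠ c' →
  Rel c c' N → Aut f N → (fun x => ax N x (f x)) '' I = I → ∀ x, f x = n

/-- T21: normal form of the maps which preserve a ray -/
def TaskRayForm : Prop := ∀ (f : ℝ → ℝ) (I : Set ℝ) (m n c c' : ℝ) (N : Fin 6 → ℝ), IsOpen I →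
  I.OrdConnected → I.Nonempty → I ≠ Set.univ → m ≠ 0 → (∀ x ∈ I, f x = m * x + n) → 0 < c →
  0 < c' → c ≠ c' → Rel c c' N → Aut f N → 0 < dt N → (fun x => ax N x (f x)) '' I = I →
  ∃ s : ℝ, (I = Set.Ioi s ∨ I = Set.Iio s) ∧ ∃ lam μ ν : ℝ, 0 < lam ∧ 0 < ν ∧ μ ≠ 0 ∧
    μ * (c * c' * m ^ 2 - 1) = c * c' * m * (lam - ν) ∧
    ∀ u y : ℝ, ax N (s + u) (m * (s + u) + n + y) = s + (lam * u + μ * y) ∧
      ay N (s + u) (m * (s + u) + n + y) = m * (s + (lam * u + μ * y)) + n + ν * y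

/-- T22: the shear argument -/
def TaskShear : Prop := ∀ (h : ℝ → ℝ) (l₁ μ₁ ν₁ l₂ μ₂ ν₂ : ℝ),
  ((∀ u, 0 < u → h u = 0) ∨ ∀ u, u < 0 → h u = 0) → l₁ ≠ 0 → ν₁ ≠ 0 → l₂ ≠ 0 → ν₂ ≠ 0 →
  μ₂ * (l₁ - ν₁) ≠ μ₁ * (l₂ - ν₂) →
  (∀ u, h (l₁ * u + μ₁ * h u) = ν₁ * h u) → (∀ u, h (l₂ * u + μ₂ * h u) = ν₂ * h u) →
  (Function.Surjective fun u => l₁ * u + μ₁ * h u) →
  (Function.Surjective fun u => l₂ * u + μ₂ * h u) → ∀ u, h u = 0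

/-- T23: functions of Baire class 1 have points of continuity -/
def TaskB1 : Prop := ∀ (f : ℝ → ℝ) (F : ℕ → ℝ → ℝ), (∀ n, Continuous (F n)) →
  (∀ x, Tendsto (fun n => F n x) atTop (𝓝 (f x))) → ∃ x₀, ContinuousAt f x₀

/-- The final statement. -/
def Final : Prop := ∀ f : ℝ → ℝ, VRigid f → (∃ x₀, ContinuousAt f x₀) →
  (∃ a b : ℝ, ∀ x, f x = a + b * x) ∨ ∃ a b k : ℝ, ∀ x, f x = a + b * Real.exp (k * x)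

end H12VR
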