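import Pool.Agent.H192R3.VR.TaskIso
import Pool.Agent.H65R3.VR.Acc
import Pool.Agent.H915R3.VR.TaskInvAut
import Pool.Agent.H551R3.VR.TaskGroup
import Pool.Agent.H277R3.VR.Cont
import Pool.Agent.H3R3.VR.Lim
import Pool.Agent.H170.VR.ODE
import Pool.Agent.H12R3.VR.TFlow
import Pool.Agent.H135R3.VR.TaskConj
import Pool.Agent.H26R3.VR.RegA
import Pool.Agent.H12R3.VR.RegB
import Pool.Agent.H482.VR.Vert
import Pool.Agent.H655R3.VR.Line
import Pool.Agent.H583R3.VR.TaskAutD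
import Pool.Agent.H77R3.VR.Comp
import Pool.Agent.H275R3.VR.Tan
import Pool.Agent.H679R3.VR.TaskOdeC
import Pool.Agent.H545R3.VR.TExp
import Pool.Agent.H858V.VR.TaskConst
import Pool.Agent.H830R3.VR.TaskRayForm
import Pool.Agent.H300R3.VR.TaskShear
import Pool.Agent.H978R3.VR.TaskB1
import Pool.Agent.H12R3.VR.OdeB
import Pool.Agent.H12R3.VR.Assembly

set_option autoImplicit false

open Filter Topology

namespace H12VR

theorem finalAll : Final :=
  final t_TaskIso H65VR.taskAcc Pool.Agent.H915R3.VRInvAut.t Pool.Agent.H551R3.VR.taskGroup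
    Pool.Agent.H277R3.VR.taskCont Pool.Agent.H3R3.VR.taskLim ODE170.taskODE taskFlow
    Pool.Agent.H135R3.VR.t Pool.Agent.H26R3.VR.RegA.t taskRegB Pool.Agent.H482.VR.t
    Pool.Agent.H655R3.VR.t H583R3.VR.t taskComp H275.taskTan taskOdeB Pool.Agent.H679R3.VR.t
    Pool.Agent.H545R3.VR.taskExp Pool.Agent.H858V.VR.taskConst Pool.Agent.H830R3.VR.t
    Pool.Agent.H300R3.VR.t

theorem main (f : ℝ → ℝ) (hf : VRigid f)
    (h : (∃ x₀ : ℝ, ContinuousAt f x₀) ∨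
      ∃ F : ℕ → ℝ → ℝ, (∀ n, Continuous (F n)) ∧ ∀ x, Tendsto (fun n => F n x) atTop (𝓝 (f x))) :
    (∃ a b : ℝ, ∀ x, f x = a + b * x) ∨ ∃ a b k : ℝ, ∀ x, f x = a + b * Real.exp (k * x) := by
  refine finalAll f hf ?_
  rcases h with h | ⟨F, hF, hlim⟩
  · exact h
  · exact Pool.Agent.H978R3.VR.TaskB1.t f F hF hlim

end H12VR
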